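import Pool.Agent.Helper16.HR.Stmts

/-! Module FNUM: the final numbers. -/

set_option autoImplicit false

namespace Pool.Helper16.HR

theorem fnum_A0 (n : ℕ) : Ack 0 n = 2 ^ n := by rw [Ack]

theorem fnum_A1 (l : ℕ) : Ack (l + 1) 0 = 1 := by rw [Ack]

theorem fnum_A2 (l n : ℕ) : Ack (l + 1) (n + 1) = Ack l (Ack (l + 1) n) := by rw [Ack]

theorem fnum_ack (l : ℕ) : ∀ n : ℕ, 2 ^ n ≤ Ack l n := by
  induction l with
  | zero => intro n; exact (fnum_A0 n).ge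
  | succ l ihl =>
    intro n
    induction n with
    | zero => exact (fnum_A1 l).ge
    | succ n ih =>
      rw [fnum_A2 l n]
      refine le_trans ?_ (ihl _)
      refine Nat.pow_le_pow_right (by omega) ?_
      exact le_trans Nat.lt_two_pow_self ih

theorem fnum_step (l n : ℕ) : Ack l n ≤ Ack l (n + 1) := by
  cases l with
  | zero =>
    rw [fnum_A0, fnum_A0]
    exact Nat.pow_le_pow_right (by omega) (by omega)
  | succ l =>
    rw [fnum_A2 l n]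
    exact le_trans Nat.lt_two_pow_self.le (fnum_ack l _)

theorem fnum_mono (l : ℕ) {a b : ℕ} (h : a ≤ b) : Ack l a ≤ Ack l b :=
  monotone_nat_of_le_succ (fnum_step l) h

theorem fnum_sq : ∀ L : ℕ, 6 ≤ L → (L + 1) ^ 2 ≤ 2 ^ L := by
  intro L hL
  induction L, hL using Nat.le_induction with
  | base => norm_num
  | succ L hL ih =>
    rw [pow_succ 2 L]
    nlinarith

theorem fnum_pow (Y a : ℕ) (h1 : a ^ 2 ≤ Y) (h2 : 64 ≤ Y) : Y ^ a ≤ 2 ^ Y := by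
  have h3 : Y < 2 ^ (Nat.log 2 Y + 1) := Nat.lt_pow_succ_log_self (by omega) Y
  have h4 : 2 ^ Nat.log 2 Y ≤ Y := Nat.pow_log_le_self 2 (by omega)
  have h5 : 6 ≤ Nat.log 2 Y := by
    apply Nat.le_log_of_pow_le (by omega)
    omega
  have h6 := fnum_sq _ h5
  set L := Nat.log 2 Y
  have h7 : (L + 1) * a ≤ Y := by
    have h8 : ((L + 1) * a) ^ 2 ≤ Y ^ 2 := by
      rw [mul_pow, pow_two Y]
      exact Nat.mul_le_mul (le_trans h6 h4) h1
    exact (Nat.pow_le_pow_iff_left (by omega)).1 h8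
  calc Y ^ a ≤ (2 ^ (L + 1)) ^ a := Nat.pow_le_pow_left h3.le a
    _ = 2 ^ ((L + 1) * a) := by rw [pow_mul]
    _ ≤ 2 ^ Y := Nat.pow_le_pow_right (by omega) h7

theorem fnum_lin (h : ℕ) : 15 + 6 * h ≤ 16 * 2 ^ h := by
  induction h with
  | zero => norm_num
  | succ h ih =>
    have : 1 ≤ 2 ^ h := Nat.one_le_two_pow
    rw [pow_succ]
    omega

theorem st_FNUM : ST_FNUM := by
  intro l h m q e hl hm hq hqh he heh Fv hFv hFv' θ hθ
  obtain ⟨i, hi⟩ : ∃ i, i = (2 ^ (14 + 6 * h) * m) ^ (2 * Gq q + 6) := ⟨_, rfl⟩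
  rw [← hi] at hFv'
  obtain ⟨Y, hY⟩ : ∃ Y, Y = Ack l i := ⟨_, rfl⟩
  rw [← hY] at hFv'
  have hb1 : 1 ≤ 2 ^ (14 + 6 * h) * m :=
    Nat.mul_pos (Nat.two_pow_pos _) (by omega)
  -- lower bounds for `i`, `Y`
  have hi1 : 2 ^ (14 + 6 * h) * m ≤ i := by
    rw [hi]
    calc 2 ^ (14 + 6 * h) * m = (2 ^ (14 + 6 * h) * m) ^ 1 := (pow_one _).symm
      _ ≤ _ := Nat.pow_le_pow_right hb1 (by omega)
  have hiY : i ≤ Y := by
    rw [hY]
    exact le_trans Nat.lt_two_pow_self.le (fnum_ack l i)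
  have hpw : 2 ^ (14 + 6 * h) ≤ Y := by
    refine le_trans ?_ (le_trans hi1 hiY)
    exact Nat.le_mul_of_pos_right _ (by omega)
  have hY1 : 1 ≤ Y := le_trans Nat.one_le_two_pow hpw
  -- upper bound for `i + 1`
  have hG : 2 * Gq q + 6 ≤ 22 * 4 ^ h := by
    have h1 : q ^ 2 ≤ 4 ^ h := by
      calc q ^ 2 ≤ (2 ^ h) ^ 2 := Nat.pow_le_pow_left hqh 2
        _ = 4 ^ h := by rw [← pow_mul, mul_comm, pow_mul]; norm_num
    unfold Gq
    nlinarith
  have hiU : i + 1 ≤ m ^ (2 ^ (3 * h + 10)) := by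
    have h1 : 2 ^ (14 + 6 * h) * m ≤ m ^ (15 + 6 * h) := by
      calc 2 ^ (14 + 6 * h) * m ≤ m ^ (14 + 6 * h) * m :=
            Nat.mul_le_mul_right _ (Nat.pow_le_pow_left hm _)
        _ = m ^ (15 + 6 * h) := by rw [← pow_succ]; congr 1; omega
    have h2 : i ≤ m ^ ((15 + 6 * h) * (2 * Gq q + 6)) := by
      rw [hi, pow_mul]
      exact Nat.pow_le_pow_left h1 _
    have h3 : (15 + 6 * h) * (2 * Gq q + 6) + 1 ≤ 2 ^ (3 * h + 10) := by
      have h4 : (15 + 6 * h) * (2 * Gq q + 6) ≤ (16 * 2 ^ h) * (22 * 4 ^ h) :=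
        Nat.mul_le_mul (fnum_lin h) hG
      have h5 : (16 * 2 ^ h) * (22 * 4 ^ h) = 352 * 8 ^ h := by
        have : (8 : ℕ) ^ h = 2 ^ h * 4 ^ h := by rw [← mul_pow]; norm_num
        rw [this]
        ring
      have h6 : 2 ^ (3 * h + 10) = 1024 * 8 ^ h := by
        rw [pow_add, pow_mul]
        norm_num
        ring
      have h7 : 1 ≤ 8 ^ h := Nat.one_le_pow _ _ (by omega)
      rw [h6]
      omega
    have h8 : 1 ≤ m ^ ((15 + 6 * h) * (2 * Gq q + 6)) := Nat.one_le_pow _ _ (by omega)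
    calc i + 1 ≤ m ^ ((15 + 6 * h) * (2 * Gq q + 6)) * m := by nlinarith
      _ = m ^ ((15 + 6 * h) * (2 * Gq q + 6) + 1) := (pow_succ _ _).symm
      _ ≤ _ := Nat.pow_le_pow_right (by omega) h3
  have hAU : 2 ^ Y ≤ Ack l (m ^ (2 ^ (3 * h + 10))) := by
    refine le_trans ?_ (fnum_mono l hiU)
    obtain ⟨l', rfl⟩ : ∃ l', l = l' + 1 := ⟨l - 1, by omega⟩
    rw [fnum_A2 l' i, ← hY]
    exact fnum_ack l' Y
  -- the main quantity
  obtain ⟨Z, hZ⟩ : ∃ Z, Z = 8 * max 1 (h ^ 2) * m * 2 ^ h * Y ^ (3 * q) := ⟨_, rfl⟩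
  have hh2 : max 1 (h ^ 2) ≤ 2 ^ (2 * h) := by
    refine max_le Nat.one_le_two_pow ?_
    rw [mul_comm, pow_mul]
    exact Nat.pow_le_pow_left Nat.lt_two_pow_self.le 2
  have hZ1 : Z ≤ Y ^ (3 * q + 1) := by
    rw [hZ, pow_succ Y (3 * q), mul_comm (Y ^ (3 * q)) Y]
    refine Nat.mul_le_mul_right _ ?_
    calc 8 * max 1 (h ^ 2) * m * 2 ^ h ≤ 8 * 2 ^ (2 * h) * m * 2 ^ h := by
          refine Nat.mul_le_mul_right _ (Nat.mul_le_mul_right _ (Nat.mul_le_mul_left _ hh2))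
      _ = 2 ^ (3 + 3 * h) * m := by
          rw [pow_add, show 3 * h = 2 * h + h by ring, pow_add]
          ring
      _ ≤ 2 ^ (14 + 6 * h) * m :=
          Nat.mul_le_mul_right _ (Nat.pow_le_pow_right (by omega) (by omega))
      _ ≤ Y := le_trans hi1 hiY
  have hZ0 : 1 ≤ Z := by
    rw [hZ]
    have h1 : 1 ≤ max 1 (h ^ 2) := le_max_left _ _
    have h2 : 1 ≤ Y ^ (3 * q) := Nat.one_le_pow _ _ hY1
    have h3 : 1 ≤ 2 ^ h := Nat.one_le_two_pow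
    exact Nat.mul_pos (Nat.mul_pos (Nat.mul_pos (by omega) (by omega)) (by omega)) (by omega)
  have hexp : (3 * q + 1) * (h + 1) ≤ 4 ^ (h + 1) := by
    have h1 : 3 * q + 1 ≤ 4 * 2 ^ h := by omega
    have h2 : h + 1 ≤ 2 ^ h := Nat.lt_two_pow_self
    calc (3 * q + 1) * (h + 1) ≤ (4 * 2 ^ h) * 2 ^ h := Nat.mul_le_mul h1 h2
      _ = 4 ^ (h + 1) := by
        rw [pow_succ 4 h, show (4 : ℕ) ^ h = 2 ^ h * 2 ^ h by rw [← mul_pow]; norm_num]
        ring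
  have hfin : Z ^ (h + 1) ≤ Ack l (m ^ (2 ^ (3 * h + 10))) := by
    refine le_trans ?_ hAU
    calc Z ^ (h + 1) ≤ (Y ^ (3 * q + 1)) ^ (h + 1) := Nat.pow_le_pow_left hZ1 _
      _ = Y ^ ((3 * q + 1) * (h + 1)) := (pow_mul _ _ _).symm
      _ ≤ Y ^ (4 ^ (h + 1)) := Nat.pow_le_pow_right hY1 hexp
      _ ≤ 2 ^ Y := by
        refine fnum_pow Y _ ?_ ?_
        · refine le_trans ?_ hpw
          rw [← pow_mul, show (4 : ℕ) = 2 ^ 2 by norm_num, ← pow_mul]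
          exact Nat.pow_le_pow_right (by omega) (by omega)
        · refine le_trans ?_ hpw
          calc 64 = 2 ^ 6 := by norm_num
            _ ≤ _ := Nat.pow_le_pow_right (by omega) (by omega)
  -- the real numbers
  have hFr : (1 : ℝ) ≤ Fv := by exact_mod_cast hFv
  have hF0 : (0 : ℝ) < (Fv : ℝ) ^ (3 * q) := by positivity
  have hm0 : (0 : ℝ) < m := by
    have : 0 < m := by omega
    exact_mod_cast this
  have he0 : (0 : ℝ) < e := by
    have : 0 < e := by omega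
    exact_mod_cast this
  have h2θ : 2 / θ = ((8 * (m * e) * Fv ^ (3 * q) : ℕ) : ℝ) := by
    rw [hθ]
    push_cast
    field_simp
    norm_num
  have hle1 : 8 * (m * e) * Fv ^ (3 * q) ≤ 8 * m * 2 ^ h * Y ^ (3 * q) := by
    refine Nat.mul_le_mul ?_ (Nat.pow_le_pow_left hFv' _)
    rw [mul_assoc]
    exact Nat.mul_le_mul_left _ (Nat.mul_le_mul_left _ heh)
  have hleZ : 8 * (m * e) * Fv ^ (3 * q) ≤ Z := by
    refine le_trans hle1 ?_
    rw [hZ]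
    refine Nat.mul_le_mul_right _ (Nat.mul_le_mul_right _ (Nat.mul_le_mul_right _ ?_))
    have : 1 ≤ max 1 (h ^ 2) := le_max_left _ _
    omega
  have hleZ2 : h ^ 2 * (8 * (m * e) * Fv ^ (3 * q)) ≤ Z := by
    calc h ^ 2 * (8 * (m * e) * Fv ^ (3 * q)) ≤
          max 1 (h ^ 2) * (8 * m * 2 ^ h * Y ^ (3 * q)) :=
          Nat.mul_le_mul (le_max_right _ _) hle1
      _ = Z := by rw [hZ]; ring
  constructor
  · rw [h2θ]
    have h1 : Z ≤ Z ^ (h + 1) := Nat.le_self_pow (by omega) Z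
    exact_mod_cast le_trans hleZ (le_trans h1 hfin)
  · have h1 : 2 * (h : ℝ) ^ 2 / θ = ((h ^ 2 * (8 * (m * e) * Fv ^ (3 * q)) : ℕ) : ℝ) := by
      have : 2 * (h : ℝ) ^ 2 / θ = (h : ℝ) ^ 2 * (2 / θ) := by ring
      rw [this, h2θ]
      push_cast
      ring
    rw [h1]
    have h2 : (h ^ 2 * (8 * (m * e) * Fv ^ (3 * q))) ^ h ≤ Ack l (m ^ (2 ^ (3 * h + 10))) := by
      refine le_trans (Nat.pow_le_pow_left hleZ2 h) (le_trans ?_ hfin)
      exact Nat.pow_le_pow_right hZ0 (by omega)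
    exact_mod_cast h2

end Pool.Helper16.HR
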